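import Pool.Agent.H25.GD.Targets

/-! Row `V_LOC` of the board `gd_modules`: boxes of constant height over the compact intervals of
leaves. -/

set_option autoImplicit false

namespace Pool.Agent.H24.GD

open Pool.Agent.H44.DU

variable {n : ℕ} (S : Surf n)

lemma int_ne (i : Fin n) : (interior (S.tri i)).Nonempty := by
  set v0 := S.v i 0 with hv0
  set v1 := S.v i 1 with hv1
  set v2 := S.v i 2 with hv2
  set A : ℝ := (v1 - v0).re * (v2 - v0).im - (v1 - v0).im * (v2 - v0).re with hA
  have hA0 : 0 < A := S.orient i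
  set α : ℂ → ℝ := fun z => ((z - v0).re * (v2 - v0).im - (z - v0).im * (v2 - v0).re) / A with hα
  set β : ℂ → ℝ := fun z => ((v1 - v0).re * (z - v0).im - (v1 - v0).im * (z - v0).re) / A with hβ
  have hαc : Continuous α := by
    rw [hα]
    fun_prop
  have hβc : Continuous β := by
    rw [hβ]
    fun_prop
  have hopen : IsOpen {z : ℂ | 0 < α z ∧ 0 < β z ∧ α z + β z < 1} :=
    (isOpen_lt continuous_const hαc).inter
      ((isOpen_lt continuous_const hβc).inter (isOpen_lt (hαc.add hβc) continuous_const))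
  have hsub : {z : ℂ | 0 < α z ∧ 0 < β z ∧ α z + β z < 1} ⊆ S.tri i := by
    rintro z ⟨h1, h2, h3⟩
    have e1 : α z * A = (z - v0).re * (v2 - v0).im - (z - v0).im * (v2 - v0).re :=
      div_mul_cancel₀ _ hA0.ne'
    have e2 : β z * A = (v1 - v0).re * (z - v0).im - (v1 - v0).im * (z - v0).re :=
      div_mul_cancel₀ _ hA0.ne'
    have hA' := hA
    simp only [Complex.sub_re, Complex.sub_im] at e1 e2 hA'
    have hz1 : z = (1 - α z - β z) • v0 + α z • v1 + β z • v2 := by
      generalize α z = p at e1 ⊢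
      generalize β z = r at e2 ⊢
      apply Complex.ext
      · simp only [Complex.add_re, Complex.smul_re, smul_eq_mul]
        apply mul_right_cancel₀ hA0.ne'
        linear_combination (v0.re - v1.re) * e1 + (v0.re - v2.re) * e2 + (z.re - v0.re) * hA'
      · simp only [Complex.add_im, Complex.smul_im, smul_eq_mul]
        apply mul_right_cancel₀ hA0.ne'
        linear_combination (v0.im - v1.im) * e1 + (v0.im - v2.im) * e2 + (z.im - v0.im) * hA'
    have hz : z = ∑ k : Fin 3, (![1 - α z - β z, α z, β z] : Fin 3 → ℝ) k • S.v i k := by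
      rw [Fin.sum_univ_three]
      exact hz1
    rw [hz]
    refine (convex_convexHull ℝ _).sum_mem ?_ ?_ ?_
    · intro k _
      fin_cases k
      · show 0 ≤ 1 - α z - β z
        linarith
      · exact h1.le
      · exact h2.le
    · rw [Fin.sum_univ_three]
      show (1 - α z - β z) + α z + β z = 1
      ring
    · intro k _
      exact subset_convexHull ℝ _ (Set.mem_range_self k)
  refine ⟨v0 + (1 / 3 : ℝ) • (v1 - v0) + (1 / 3 : ℝ) • (v2 - v0),
    interior_maximal hsub hopen ?_⟩
  have e1 : α (v0 + (1 / 3 : ℝ) • (v1 - v0) + (1 / 3 : ℝ) • (v2 - v0)) = 1 / 3 := by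
    simp only [hα]
    rw [div_eq_iff hA0.ne', hA]
    simp only [Complex.sub_re, Complex.sub_im, Complex.add_re, Complex.add_im, Complex.smul_re,
      Complex.smul_im, smul_eq_mul]
    ring
  have e2 : β (v0 + (1 / 3 : ℝ) • (v1 - v0) + (1 / 3 : ℝ) • (v2 - v0)) = 1 / 3 := by
    simp only [hβ]
    rw [div_eq_iff hA0.ne', hA]
    simp only [Complex.sub_re, Complex.sub_im, Complex.add_re, Complex.add_im, Complex.smul_re,
      Complex.smul_im, smul_eq_mul]
    ring
  refine ⟨?_, ?_, ?_⟩
  · rw [e1]; norm_num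
  · rw [e2]; norm_num
  · rw [e1, e2]; norm_num

lemma min_at (t : ℝ) (i : Fin n) : ∃ k, xi t (S.v i k) = S.xl t i := by
  unfold Surf.xl
  rcases min_choice (xi t (S.v i 0)) (min (xi t (S.v i 1)) (xi t (S.v i 2))) with h | h
  · exact ⟨0, h.symm⟩
  · rcases min_choice (xi t (S.v i 1)) (xi t (S.v i 2)) with h' | h'
    · exact ⟨1, by rw [h, h']⟩
    · exact ⟨2, by rw [h, h']⟩

lemma max_at (t : ℝ) (i : Fin n) : ∃ k, xi t (S.v i k) = S.xr t i := by
  unfold Surf.xr
  rcases max_choice (xi t (S.v i 0)) (max (xi t (S.v i 1)) (xi t (S.v i 2))) with h | h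
  · exact ⟨0, h.symm⟩
  · rcases max_choice (xi t (S.v i 1)) (xi t (S.v i 2)) with h' | h'
    · exact ⟨1, by rw [h, h']⟩
    · exact ⟨2, by rw [h, h']⟩

lemma xi_real_smul (t c : ℝ) (z : ℂ) : xi t (c • z) = c * xi t z := by
  simp [xi]
  ring

/-- every coordinate strictly between the extreme ones is the coordinate of an interior point -/
lemma exists_int (t : ℝ) (i : Fin n) {x : ℝ} (h1 : S.xl t i < x) (h2 : x < S.xr t i) :
    ∃ z ∈ interior (S.tri i), xi t z = x := by
  obtain ⟨z0, hz0⟩ := int_ne S i
  have key : ∀ v ∈ S.tri i, (xi t v < x ∧ x < xi t z0) ∨ (x < xi t v ∧ xi t z0 < x) →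
      ∃ z ∈ interior (S.tri i), xi t z = x := by
    intro v hv hcase
    have hne : xi t v - xi t z0 ≠ 0 := by
      rcases hcase with h | h
      · exact ne_of_lt (by linarith)
      · exact ne_of_gt (by linarith)
    set l : ℝ := (x - xi t z0) / (xi t v - xi t z0) with hl
    have hl0 : 0 < l := by
      rcases hcase with h | h
      · exact div_pos_of_neg_of_neg (by linarith) (by linarith)
      · exact div_pos (by linarith) (by linarith)
    have hl1 : l < 1 := by
      rcases hcase with h | h
      · rw [hl, div_lt_one_of_neg (by linarith)]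
        linarith
      · rw [hl, div_lt_one (by linarith)]
        linarith
    refine ⟨(1 - l) • z0 + l • v, ?_, ?_⟩
    · exact (convex_convexHull ℝ _).openSegment_interior_self_subset_interior hz0 hv
        ⟨1 - l, l, by linarith, hl0, by ring, rfl⟩
    · rw [xi_add, xi_real_smul, xi_real_smul]
      have : l * (xi t v - xi t z0) = x - xi t z0 := div_mul_cancel₀ _ hne
      linarith
  rcases lt_trichotomy x (xi t z0) with h | h | h
  · obtain ⟨k, hk⟩ := min_at S t i
    exact key (S.v i k) (subset_convexHull ℝ _ (Set.mem_range_self k))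
      (Or.inl ⟨by rw [hk]; exact h1, h⟩)
  · exact ⟨z0, hz0, h.symm⟩
  · obtain ⟨k, hk⟩ := max_at S t i
    exact key (S.v i k) (subset_convexHull ℝ _ (Set.mem_range_self k))
      (Or.inr ⟨by rw [hk]; exact h2, h⟩)

lemma isCompact_segment_complex (x y : ℂ) : IsCompact (segment ℝ x y) := by
  rw [segment_eq_image']
  exact isCompact_Icc.image (by fun_prop)

theorem pf_V_LOC : V_LOC := by
  intro n S t i a b ha hab hb
  obtain ⟨za, hza, hxa⟩ := exists_int S t i ha (hab.trans hb)
  obtain ⟨zb, hzb, hxb⟩ := exists_int S t i (ha.trans hab) hb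
  have hconv : Convex ℝ (interior (S.tri i)) := (convex_convexHull ℝ _).interior
  have hseg : segment ℝ za zb ⊆ interior (S.tri i) := hconv.segment_subset hza hzb
  obtain ⟨δ, hδ, hth⟩ := (isCompact_segment_complex za zb).exists_thickening_subset_open
    isOpen_interior hseg
  have hba : 0 < b - a := by linarith
  set e : ℝ := δ / (4 * (1 + |t|)) with he
  have ht : 0 < 1 + |t| := by positivity
  have he0 : 0 < e := by positivity
  refine ⟨2 * e, by positivity, ⌈4 * (b - a) / δ⌉₊, fun m hm hm0 => ?_⟩
  have hm' : (0 : ℝ) < m := by exact_mod_cast hm0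
  set w : ℝ → ℂ := fun x => za + ((x - a) / (b - a)) • (zb - za) with hw
  refine ⟨fun j => (w (a + j * ((b - a) / m))).im - e, fun j hj z hz => ?_⟩
  obtain ⟨h1, h2, h3, h4⟩ := hz
  set x : ℝ := a + j * ((b - a) / m) with hx
  have hD : (b - a) / m ≤ δ / 4 := by
    have h5 : 4 * (b - a) / δ ≤ m := (Nat.le_ceil _).trans (by exact_mod_cast hm)
    rw [div_le_iff₀ hδ] at h5
    rw [div_le_iff₀ hm']
    linarith
  have hj' : (j : ℝ) ≤ m := by exact_mod_cast hj.le
  have hr0 : 0 ≤ (x - a) / (b - a) := by
    have : x - a = j * ((b - a) / m) := by rw [hx]; ring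
    rw [this]
    positivity
  have hr1 : (x - a) / (b - a) ≤ 1 := by
    rw [div_le_one hba]
    have : x - a = j * (b - a) / m := by rw [hx]; ring
    rw [this, div_le_iff₀ hm']
    nlinarith
  have hwseg : w x ∈ segment ℝ za zb := by
    rw [segment_eq_image']
    exact ⟨(x - a) / (b - a), ⟨hr0, hr1⟩, rfl⟩
  have hxw : xi t (w x) = x := by
    rw [hw]
    simp only
    rw [xi_add, xi_real_smul, xi_sub, hxa, hxb]
    field_simp
    ring
  have him : |(z - w x).im| ≤ e := by
    rw [Complex.sub_im, abs_le]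
    constructor <;> linarith
  have hxi : |xi t (z - w x)| ≤ (b - a) / m := by
    rw [xi_sub, hxw, abs_le]
    have h6 : a + ((j + 1 : ℕ) : ℝ) * ((b - a) / m) = x + (b - a) / m := by
      rw [hx]
      push_cast
      ring
    rw [h6] at h2
    have : 0 ≤ (b - a) / m := by positivity
    constructor <;> linarith
  have hre : |(z - w x).re| ≤ (b - a) / m + |t| * e := by
    have h7 : (z - w x).re = xi t (z - w x) + t * (z - w x).im := by
      simp only [xi]
      ring
    rw [h7]
    refine (abs_add_le _ _).trans (add_le_add hxi ?_)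
    rw [abs_mul]
    exact mul_le_mul_of_nonneg_left him (abs_nonneg t)
  have hnorm : ‖z - w x‖ < δ := by
    refine (Complex.norm_le_abs_re_add_abs_im _).trans_lt ?_
    have h8 : (1 + |t|) * e = δ / 4 := by
      rw [he]
      field_simp
    nlinarith
  apply hth
  rw [Metric.mem_thickening_iff]
  exact ⟨w x, hwseg, by rw [dist_eq_norm]; exact hnorm⟩

end Pool.Agent.H24.GD
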